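import Pool.Agent.Work.MP_db9399_ox.Interface
import Pool.Agent.Work.MP_db9399_sg_helper79.FILL

/-!
# MP_db9399, block OXF of OUTX (helper35): the gadgets of all classes are filled
Proof of FILL (helper79), node by node with different sizes.
-/

set_option autoImplicit false

namespace Pool.Agent.Work.MP_db9399_ox.helper35

open Finset Classical
open Pool.Agent.Work.MP_db9399_all (nb)
open Pool.Agent.Work.MP_db9399_sg
open Pool.Agent.Work.MP_db9399_sg.helper79 (node mem_nsd mem_nod)

universe u

section Step

variable {V I : Type u} [Fintype V]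

/-- one colour -/
theorem step2 (nd : V → Option (I × Bool)) (W : Finset V) (M : V → V) (Fb : V → V → Prop)
    (t : I → ℕ) (hsz : ∀ i, (nsd nd i false).card = (nsd nd i true).card)
    (hW : ∀ i s, 2 * (nsd nd i s ∩ W).card ≤ (nsd nd i s).card)
    (h4 : ∀ i s, 4 * t i ≤ (nsd nd i s).card)
    (hdum : ∀ v, nd v ≠ none → v ∉ W → M v = v) (hMM : ∀ v, M (M v) = v)
    (Fi : I → V → V → Prop)
    (hFi : ∀ i v w, Fi i v w ↔ (∃ s, nd v = some (i, s) ∧ nd w = some (i, !s)) ∧ Fb v w)
    (hFb : ∀ i v, (univ.filter fun w => Fi i v w).card ≤ t i) (hsy : ∀ v w, Fb v w → Fb w v) :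
    ∃ M' : V → V, (∀ v, M' (M' v) = v) ∧ (∀ v, M v ≠ v → M' v = M v) ∧
      (∀ v, M v = v → M' v ≠ v → ∃ i s, nd v = some (i, s) ∧ nd (M' v) = some (i, !s) ∧
        ¬ Fb v (M' v)) ∧
      (∀ v, nd v ≠ none → M' v = v → v ∉ W) ∧
      ∀ i, ((nod nd i).filter fun v => M' v = v).card =
        ((((nsd nd i false).filter fun v => M v ≠ v).card : ℤ) -
          ((nsd nd i true).filter fun v => M v ≠ v).card).natAbs := by
  have hex := fun i => node nd W M (Fi i) (t i) i (hsz i) (hW i) (h4 i) hdum (hFb i) (by
        intro v w hvw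
        rw [hFi] at hvw ⊢
        obtain ⟨⟨s, h1, h2⟩, h3⟩ := hvw
        exact ⟨⟨!s, h2, by rw [Bool.not_not]; exact h1⟩, hsy _ _ h3⟩)
  choose h a1 a2 a3 a4 using hex
  let M' : V → V := fun v => if M v ≠ v then M v else
    match nd v with
    | none => v
    | some p => h p.1 v
  have e1 : ∀ v, M v ≠ v → M' v = M v := fun v hv => if_pos hv
  have e2 : ∀ v, M v = v → nd v = none → M' v = v := by
    intro v hv hn
    change (if M v ≠ v then M v else match nd v with
      | none => v
      | some p => h p.1 v) = v
    rw [if_neg (by simpa using hv), hn]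
  have e3 : ∀ v i s, M v = v → nd v = some (i, s) → M' v = h i v := by
    intro v i s hv hn
    change (if M v ≠ v then M v else match nd v with
      | none => v
      | some p => h p.1 v) = h i v
    rw [if_neg (by simpa using hv), hn]
  have hnew : ∀ v, M v = v → M' v ≠ v → ∃ i s, nd v = some (i, s) ∧ nd (M' v) = some (i, !s) ∧
      ¬ Fb v (M' v) ∧ M' v = h i v := by
    intro v hv hv'
    rcases hn : nd v with _ | ⟨i, s⟩
    · exact absurd (e2 v hv hn) hv'
    · have h1 := e3 v i s hv hn
      rw [h1] at hv' ⊢
      obtain ⟨-, s', h2, h3, h4⟩ := a2 i v hv'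
      have h5 : s' = s := by
        have := Option.some.inj (hn.symm.trans h2)
        exact (congrArg Prod.snd this).symm
      rw [h5] at h3
      exact ⟨i, s, rfl, h3, fun hF => h4 ((hFi _ _ _).mpr ⟨⟨s, hn, h3⟩, hF⟩), rfl⟩
  refine ⟨M', ?_, e1, ?_, ?_, ?_⟩
  · intro v
    by_cases hv : M v = v
    · by_cases hv' : M' v = v
      · rw [hv', hv']
      · obtain ⟨i, s, h1, h2, h3, h4⟩ := hnew v hv hv'
        have h5 : M (M' v) = M' v := by
          rw [h4] at hv' ⊢
          have h6 : h i (h i v) ≠ h i v := by
            rw [a1]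
            exact fun h => hv' h.symm
          exact (a2 i (h i v) h6).1
        rw [e3 (M' v) i (!s) h5 h2, h4, a1]
    · have h1 : M (M v) ≠ M v := by
        rw [hMM]
        exact fun h => hv h.symm
      rw [e1 v hv, e1 (M v) h1, hMM]
  · intro v hv hv'
    obtain ⟨i, s, h1, h2, h3, -⟩ := hnew v hv hv'
    exact ⟨i, s, h1, h2, h3⟩
  · intro v hn hv'
    rcases hn' : nd v with _ | ⟨i, s⟩
    · exact absurd hn' hn
    · by_cases hv : M v = v
      · rw [e3 v i s hv hn'] at hv'
        exact a3 i v s hn' hv hv'
      · rw [e1 v hv] at hv'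
        exact absurd hv' hv
  · intro i
    rw [← a4 i]
    congr 1
    ext v
    rw [Finset.mem_filter, Finset.mem_filter]
    constructor
    · rintro ⟨h1, h2⟩
      obtain ⟨s, hs⟩ := mem_nod.mp h1
      by_cases hv : M v = v
      · rw [e3 v i s hv hs] at h2
        exact ⟨h1, hv, h2⟩
      · rw [e1 v hv] at h2
        exact absurd h2 hv
    · rintro ⟨h1, hv, h2⟩
      obtain ⟨s, hs⟩ := mem_nod.mp h1
      rw [e3 v i s hv hs]
      exact ⟨h1, h2⟩

end Step

theorem stmt_OXF : Stmt_OXF.{u} := by
  intro V I I' J _ _ _ _ P cl H Gh S O W K A Ex Exc nd pr d D r a MS g δ β c1 C C' ρ0 ρ2 ε1 ρ1 L N0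
    hD hC hP hR hM
  have hN0W : ∀ b v, N0 b v ≠ v → v ∈ W ∧ N0 b v ∈ W := by
    intro b v hv
    have h1 := (hM.NG b v hv).1
    exact ⟨hC.HW _ _ _ h1, hC.HW _ _ _ h1.symm⟩
  have key : ∀ B : Finset (Fin P), ∃ N' : Fin P → V → V, (∀ b, b ∉ B → N' b = N0 b) ∧
      (∀ b v, N' b (N' b v) = v) ∧
      (∀ b v, N0 b v ≠ v → N' b v = N0 b v) ∧
      (∀ b v, N0 b v = v → N' b v ≠ v → ∃ i s, nd (cl b) v = some (i, s) ∧
        nd (cl b) (N' b v) = some (i, !s) ∧
        ¬ (S (cl b)).Adj v (N' b v) ∧ (v ∉ W ∨ N' b v ∉ W)) ∧
      (∀ b b' v, N' b v ≠ v → N' b v = N' b' v → b = b') ∧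
      (∀ b ∈ B, ∀ v, nd (cl b) v ≠ none → N' b v = v → v ∉ W) ∧
      ∀ b ∈ B, ∀ i, ((nod (nd (cl b)) i).filter fun v => N' b v = v).card =
        (sgn (nd (cl b)) N0 i b).natAbs := by
    intro B
    induction B using Finset.induction_on with
    | empty =>
      refine ⟨N0, fun _ _ => rfl, hM.NN, fun _ _ _ => rfl, ?_, hM.Nd, ?_, ?_⟩
      · intro b v h1 h2
        exact absurd h1 h2
      · intro b hb
        exact absurd hb (Finset.notMem_empty b)
      · intro b hb
        exact absurd hb (Finset.notMem_empty b)
    | insert b0 B hb0 ih =>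
      obtain ⟨M, m1, m2, m3, m4, m5, m6, m7⟩ := ih
      have hM0 : M b0 = N0 b0 := m1 b0 hb0
      obtain ⟨Fb, hFbd⟩ : ∃ Fb : V → V → Prop, ∀ v w,
          Fb v w ↔ ((S (cl b0)).Adj v w ∨ (v ∈ W ∧ w ∈ W) ∨ ∃ b, cl b = cl b0 ∧ M b v = w) :=
        ⟨_, fun _ _ => Iff.rfl⟩
      have hsy : ∀ v w, Fb v w → Fb w v := by
        intro v w hvw
        rw [hFbd] at hvw ⊢
        rcases hvw with h | h | ⟨b, h', h⟩
        · exact Or.inl h.symm
        · exact Or.inr (Or.inl ⟨h.2, h.1⟩)
        · refine Or.inr (Or.inr ⟨b, h', ?_⟩)
          rw [← h, m2]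
      have hsz := hC.sz (cl b0)
      obtain ⟨Fi, hFi⟩ : ∃ Fi : I → V → V → Prop, ∀ i v w, Fi i v w ↔
          (∃ s, nd (cl b0) v = some (i, s) ∧ nd (cl b0) w = some (i, !s)) ∧ Fb v w :=
        ⟨_, fun _ _ _ => Iff.rfl⟩
      have hFb : ∀ i v, (univ.filter fun w => Fi i v w).card ≤
          (nsd (nd (cl b0)) i false).card / 4 := by
        intro i v
        by_cases hv : ∃ s, nd (cl b0) v = some (i, s)
        · obtain ⟨s, hs⟩ := hv
          have h1 : (univ.filter fun w => Fi i v w) ⊆
              (nb (S (cl b0)) v ∪ (nsd (nd (cl b0)) i (!s) ∩ W)) ∪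
                (univ.filter fun b => cl b = cl b0).image fun b => M b v := by
            intro w hw
            rw [Finset.mem_filter, hFi] at hw
            obtain ⟨-, ⟨s', hs', hw'⟩, hF⟩ := hw
            have e1 : s' = s := (congrArg Prod.snd (Option.some.inj (hs.symm.trans hs'))).symm
            rw [Finset.mem_union, Finset.mem_union, Finset.mem_image]
            rcases (hFbd _ _).mp hF with h | h | ⟨b, h', h⟩
            · refine Or.inl (Or.inl ?_)
              unfold nb
              rw [Finset.mem_filter]
              exact ⟨Finset.mem_univ _, h⟩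
            · refine Or.inl (Or.inr (Finset.mem_inter.mpr ⟨mem_nsd.mpr ?_, h.2⟩))
              rw [hw', e1]
            · exact Or.inr ⟨b, Finset.mem_filter.mpr ⟨Finset.mem_univ _, h'⟩, h⟩
          have h2 := Finset.card_le_card h1
          have h3 := Finset.card_union_le (nb (S (cl b0)) v ∪ (nsd (nd (cl b0)) i (!s) ∩ W))
            ((univ.filter fun b => cl b = cl b0).image fun b => M b v)
          have h4 := Finset.card_union_le (nb (S (cl b0)) v) (nsd (nd (cl b0)) i (!s) ∩ W)
          have h5 : ((univ.filter fun b => cl b = cl b0).image fun b => M b v).card ≤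
              (univ.filter fun b => cl b = cl b0).card := Finset.card_image_le
          have h6 := (hR (cl b0)).cl.hi v
          have h7 := hP (cl b0)
          have h8 := hsz i (!s) false
          have h9 := hD (cl b0)
          omega
        · have h1 : (univ.filter fun w => Fi i v w) = ∅ := by
            rw [Finset.filter_eq_empty_iff]
            intro w _ hw
            obtain ⟨⟨s, hs, -⟩, -⟩ := (hFi _ _ _).mp hw
            exact hv ⟨s, hs⟩
          rw [h1]
          simp
      obtain ⟨M', a1, a2, a3, a4, a5⟩ := step2 (nd (cl b0)) W (N0 b0) Fb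
        (fun i => (nsd (nd (cl b0)) i false).card / 4) ((hC.wld (cl b0)).sz)
        (fun i s => by
          have := hsz i s s
          omega)
        (fun i s => by
          have h1 := (hC.wld (cl b0)).sz i
          cases s
          · omega
          · omega)
        (fun v hv hvW => by
          by_contra h
          exact hvW (hN0W b0 v h).1) (hM.NN b0) Fi hFi hFb hsy
      refine ⟨Function.update M b0 M', ?_, ?_, ?_, ?_, ?_, ?_, ?_⟩
      · intro b hb
        rw [Finset.mem_insert, not_or] at hb
        rw [Function.update_of_ne hb.1]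
        exact m1 b hb.2
      · intro b v
        by_cases hb : b = b0
        · subst hb
          rw [Function.update_self]
          exact a1 v
        · rw [Function.update_of_ne hb]
          exact m2 b v
      · intro b v
        by_cases hb : b = b0
        · subst hb
          rw [Function.update_self]
          exact a2 v
        · rw [Function.update_of_ne hb]
          exact m3 b v
      · intro b v
        by_cases hb : b = b0
        · subst hb
          rw [Function.update_self]
          intro h1 h2
          obtain ⟨i, s, h3, h4, h5⟩ := a3 v h1 h2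
          rw [hFbd, not_or, not_or] at h5
          exact ⟨i, s, h3, h4, h5.1, not_and_or.mp h5.2.1⟩
        · rw [Function.update_of_ne hb]
          exact m4 b v
      · have hmix : ∀ b v, b ≠ b0 → M' v ≠ v → M' v = M b v → False := by
          intro b v hb h1 h2
          by_cases h3 : N0 b0 v = v
          · obtain ⟨i, s, h4, h5, h6⟩ := a3 v h3 h1
            rw [hFbd, not_or, not_or] at h6
            obtain ⟨-, h7, h8⟩ := h6
            have hMb : M b v ≠ v := by
              rw [← h2]
              exact h1
            by_cases h9 : N0 b v = v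
            · obtain ⟨i', s', h10, h11, -, -⟩ := m4 b v h9 hMb
              have hA : ∀ y, nd (cl b0) y ≠ none → y ∈ A (cl b0) := (hC.wld (cl b0)).nA
              have hA' : ∀ y, nd (cl b) y ≠ none → y ∈ A (cl b) := (hC.wld (cl b)).nA
              have hcl : cl b = cl b0 := by
                rcases not_and_or.mp h7 with h12 | h12
                · exact hC.one _ _ v h12 (hA' v (by rw [h10]; simp)) (hA v (by rw [h4]; simp))
                · refine hC.one _ _ (M' v) h12 (hA' _ ?_) (hA _ (by rw [h5]; simp))
                  rw [h2, h11]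
                  simp
              exact h8 ⟨b, hcl, h2.symm⟩
            · have h10 := hN0W b v h9
              rw [← m3 b v h9, ← h2] at h10
              exact h7 h10
          · have h4 := a2 v h3
            rw [h4, ← hM0] at h1 h2
            exact hb (m5 b0 b v h1 h2).symm
        intro b b' v h1 h2
        by_cases hb : b = b0
        · subst hb
          by_cases hb' : b' = b
          · exact hb'.symm
          · rw [Function.update_self] at h1 h2
            rw [Function.update_of_ne hb'] at h2
            exact (hmix b' v hb' h1 h2).elim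
        · rw [Function.update_of_ne hb] at h1 h2
          by_cases hb' : b' = b0
          · subst hb'
            rw [Function.update_self] at h2
            rw [h2] at h1
            exact (hmix b v hb h1 h2.symm).elim
          · rw [Function.update_of_ne hb'] at h2
            exact m5 b b' v h1 h2
      · intro b hb v
        by_cases hb' : b = b0
        · subst hb'
          rw [Function.update_self]
          exact a4 v
        · rw [Function.update_of_ne hb']
          exact m6 b (Finset.mem_of_mem_insert_of_ne hb hb') v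
      · intro b hb i
        by_cases hb' : b = b0
        · subst hb'
          rw [Function.update_self]
          exact a5 i
        · rw [Function.update_of_ne hb']
          exact m7 b (Finset.mem_of_mem_insert_of_ne hb hb') i
  obtain ⟨N', -, n2, n3, n4, n5, n6, n7⟩ := key univ
  exact ⟨N', ⟨n2, n3, n4, n5, fun b v => n6 b (Finset.mem_univ b) v,
    fun b i => n7 b (Finset.mem_univ b) i⟩⟩

end Pool.Agent.Work.MP_db9399_ox.helper35
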