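import Pool.Agent.Work.MP_db9399_ox.Interface
import Pool.Agent.Work.MP_db9399_sg_helper79.FILL

/-!
# MP_db9399, block OXD of OUTX (helper35), part A: conservation, transfer to the real vertices, numbers
-/

set_option autoImplicit false

namespace Pool.Agent.Work.MP_db9399_ox.helper35

open Finset Classical
open Pool.Agent.Work.MP_db9399_all (nb)
open Pool.Agent.Work.MP_db9399_cg (sp)
open Pool.Agent.Work.MP_db9399_sg
open Pool.Agent.Work.MP_db9399_sg.helper79 (mem_nsd mem_nod)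

universe u

section Cons

variable {V I : Type u} [Fintype V]

/-- conservation in one gadget -/
theorem cons (nd : V → Option (I × Bool)) (R : V → Prop) (M : V → V) (hM : ∀ v, M (M v) = v)
    (hR : ∀ v, R v → M v ≠ v) (hR2 : ∀ v, R v → R (M v))
    (hg : ∀ v, M v ≠ v → ¬ R v → ∃ i s, nd v = some (i, s) ∧ nd (M v) = some (i, !s))
    (i : I) (hsz : (nsd nd i false).card = (nsd nd i true).card) :
    (((nsd nd i false).filter fun v => R v).card : ℤ) - ((nsd nd i true).filter fun v => R v).card =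
      (((nsd nd i true).filter fun v => M v = v).card : ℤ) -
        ((nsd nd i false).filter fun v => M v = v).card := by
  have h1 : ∀ s, (nsd nd i s).card = ((nsd nd i s).filter fun v => R v).card +
      ((nsd nd i s).filter fun v => M v = v).card +
      (((nsd nd i s).filter fun v => ¬ R v).filter fun v => M v ≠ v).card := by
    intro s
    have e1 := Finset.card_filter_add_card_filter_not (s := nsd nd i s) (fun v => R v)
    have e2 := Finset.card_filter_add_card_filter_not (s := (nsd nd i s).filter fun v => ¬ R v)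
      (fun v => M v = v)
    have e3 : (((nsd nd i s).filter fun v => ¬ R v).filter fun v => M v = v) =
        (nsd nd i s).filter fun v => M v = v := by
      ext v
      rw [Finset.mem_filter, Finset.mem_filter, Finset.mem_filter]
      constructor
      · rintro ⟨⟨h1, -⟩, h2⟩
        exact ⟨h1, h2⟩
      · rintro ⟨h1, h2⟩
        exact ⟨⟨h1, fun h => hR v h h2⟩, h2⟩
    rw [e3] at e2
    simp only [ne_eq]
    omega
  have h2 : (((nsd nd i false).filter fun v => ¬ R v).filter fun v => M v ≠ v).card =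
      (((nsd nd i true).filter fun v => ¬ R v).filter fun v => M v ≠ v).card := by
    have hmap : ∀ s v, v ∈ ((nsd nd i s).filter fun v => ¬ R v).filter (fun v => M v ≠ v) →
        M v ∈ ((nsd nd i (!s)).filter fun v => ¬ R v).filter (fun v => M v ≠ v) := by
      intro s v hv
      rw [Finset.mem_filter, Finset.mem_filter, mem_nsd] at hv ⊢
      obtain ⟨⟨h1, h2⟩, h3⟩ := hv
      obtain ⟨i', s', h4, h5⟩ := hg v h3 h2
      have h6 := Option.some.inj (h1.symm.trans h4)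
      have h7 : i = i' := congrArg Prod.fst h6
      have h8 : s = s' := congrArg Prod.snd h6
      subst h7 h8
      refine ⟨⟨h5, fun h => ?_⟩, ?_⟩
      · have := hR2 _ h
        rw [hM] at this
        exact h2 this
      · rw [hM]
        exact fun h => h3 h.symm
    exact Finset.card_bij' (fun v _ => M v) (fun v _ => M v) (fun v hv => hmap false v hv)
      (fun v hv => hmap true v hv) (fun v _ => hM v) (fun v _ => hM v)
  have h3 := h1 false
  have h4 := h1 true
  omega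

end Cons

section Tr

theorem mem_nb {V : Type u} [Fintype V] {G : SimpleGraph V} {v w : V} :
    w ∈ nb G v ↔ G.Adj v w := by
  unfold nb
  rw [Finset.mem_filter]
  exact ⟨fun h => h.2, fun h => ⟨Finset.mem_univ _, h⟩⟩

variable {W Y I : Type u} [Fintype W] [Fintype Y]

theorem card_tr (nd : W ⊕ Y → Option (I × Bool)) (i : I) (s : Bool) (p : W ⊕ Y → Prop)
    (q : W → Prop) (h1 : ∀ w, p (Sum.inl w) ↔ q w) (h2 : ∀ y, ¬ p (Sum.inr y)) :
    ((nsd (fun w => nd (Sum.inl w)) i s).filter fun w => q w).card =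
      ((nsd nd i s).filter fun v => p v).card := by
  rw [← Finset.card_map (Function.Embedding.inl : W ↪ W ⊕ Y)]
  congr 1
  ext v
  rw [Finset.mem_map, Finset.mem_filter, mem_nsd]
  constructor
  · rintro ⟨w, hw, rfl⟩
    rw [Finset.mem_filter, mem_nsd] at hw
    exact ⟨hw.1, (h1 w).mpr hw.2⟩
  · rintro ⟨h3, h4⟩
    cases v with
    | inl w => exact ⟨w, Finset.mem_filter.mpr ⟨mem_nsd.mpr h3, (h1 w).mp h4⟩, rfl⟩
    | inr y => exact absurd h4 (h2 y)

theorem nb_map (H : SimpleGraph W) (w : W) :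
    nb (H.map (Function.Embedding.inl : W ↪ W ⊕ Y)) (Sum.inl w) =
      (nb H w).map Function.Embedding.inl := by
  ext v
  rw [mem_nb, Finset.mem_map]
  constructor
  · intro h
    rw [SimpleGraph.map_adj] at h
    obtain ⟨x, y, h1, h2, h3⟩ := h
    have h4 : x = w := Sum.inl_injective h2
    subst h4
    exact ⟨y, mem_nb.mpr h1, h3⟩
  · rintro ⟨y, hy, rfl⟩
    rw [SimpleGraph.map_adj]
    exact ⟨w, y, mem_nb.mp hy, rfl, rfl⟩

theorem nb_map_card (H : SimpleGraph W) (w : W) :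
    (nb (H.map (Function.Embedding.inl : W ↪ W ⊕ Y)) (Sum.inl w)).card = (nb H w).card := by
  rw [nb_map, Finset.card_map]

theorem nb_map_inr (H : SimpleGraph W) (y : Y) :
    nb (H.map (Function.Embedding.inl : W ↪ W ⊕ Y)) (Sum.inr y) = ∅ := by
  rw [Finset.eq_empty_iff_forall_notMem]
  intro v h
  rw [mem_nb, SimpleGraph.map_adj] at h
  obtain ⟨x, z, h1, h2, h3⟩ := h
  exact absurd h2 Sum.inl_ne_inr

theorem sum_nsd (H : SimpleGraph W) (nd : W ⊕ Y → Option (I × Bool)) (i : I) (s : Bool) :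
    ∑ v ∈ nsd nd i s, ((nb (H.map (Function.Embedding.inl : W ↪ W ⊕ Y)) v).card : ℝ) =
      ∑ v ∈ nsd (fun w => nd (Sum.inl w)) i s, ((nb H v).card : ℝ) := by
  have h1 : (nsd (fun w => nd (Sum.inl w)) i s).map Function.Embedding.inl ⊆ nsd nd i s := by
    intro v hv
    rw [Finset.mem_map] at hv
    obtain ⟨w, hw, rfl⟩ := hv
    rw [mem_nsd] at hw ⊢
    exact hw
  rw [← Finset.sum_subset h1, Finset.sum_map]
  · refine Finset.sum_congr rfl fun w _ => ?_
    rw [← nb_map_card (Y := Y) H w]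
    rfl
  · intro v hv hv'
    cases v with
    | inl w =>
      refine absurd (Finset.mem_map.mpr ⟨w, ?_, rfl⟩) hv'
      rw [mem_nsd] at hv ⊢
      exact hv
    | inr y => rw [nb_map_inr]; simp

theorem sum_nod (H : SimpleGraph W) (nd : W ⊕ Y → Option (I × Bool)) (i : I) :
    ∑ v ∈ nod nd i, ((nb (H.map (Function.Embedding.inl : W ↪ W ⊕ Y)) v).card : ℝ) =
      ∑ v ∈ nod (fun w => nd (Sum.inl w)) i, ((nb H v).card : ℝ) := by
  have h1 : (nod (fun w => nd (Sum.inl w)) i).map Function.Embedding.inl ⊆ nod nd i := by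
    intro v hv
    rw [Finset.mem_map] at hv
    obtain ⟨w, hw, rfl⟩ := hv
    rw [mem_nod] at hw ⊢
    exact hw
  rw [← Finset.sum_subset h1, Finset.sum_map]
  · refine Finset.sum_congr rfl fun w _ => ?_
    rw [← nb_map_card (Y := Y) H w]
    rfl
  · intro v hv hv'
    cases v with
    | inl w =>
      refine absurd (Finset.mem_map.mpr ⟨w, ?_, rfl⟩) hv'
      rw [mem_nod] at hv ⊢
      exact hv
    | inr y => rw [nb_map_inr]; simp

theorem sdg_tr (H : SimpleGraph W) (nd : W ⊕ Y → Option (I × Bool)) (i : I) :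
    sdg (H.map (Function.Embedding.inl : W ↪ W ⊕ Y)) nd i = sdg H (fun w => nd (Sum.inl w)) i := by
  unfold sdg
  rw [sum_nsd, sum_nsd]

end Tr

section Num

theorem ev (K α β : ℝ) (h : α < β) : ∃ d0 : ℕ, ∀ d : ℕ, d0 ≤ d → 1 ≤ d ∧
    K * (d : ℝ) ^ α ≤ (d : ℝ) ^ β := by
  have h1 : Filter.Tendsto (fun d : ℕ => (d : ℝ) ^ (β - α)) Filter.atTop Filter.atTop :=
    (tendsto_rpow_atTop (by linarith)).comp tendsto_natCast_atTop_atTop
  obtain ⟨d0, hd0⟩ := Filter.eventually_atTop.mp (h1.eventually_ge_atTop K)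
  refine ⟨max d0 1, fun d hd => ?_⟩
  have hd1 : 1 ≤ d := le_trans (le_max_right _ _) hd
  have hdp : (0 : ℝ) < d := by exact_mod_cast hd1
  refine ⟨hd1, ?_⟩
  have h2 := hd0 d (le_trans (le_max_left _ _) hd)
  calc K * (d : ℝ) ^ α ≤ (d : ℝ) ^ (β - α) * (d : ℝ) ^ α :=
        mul_le_mul_of_nonneg_right h2 (Real.rpow_nonneg hdp.le _)
    _ = (d : ℝ) ^ β := by
        rw [← Real.rpow_add hdp]
        congr 1
        ring

/-- the numbers -/
theorem nums (ε₀ C ε a : ℝ) (h1 : 0 < ε₀) (h2 : ε₀ ≤ 1 / 2500) (hC : 4 ≤ C) (hε : 0 < ε)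
    (ha : 0 < a) (ha' : a ≤ 1 / 100) : ∃ d0 : ℕ, ∀ d : ℕ, d0 ≤ d → 1 ≤ d ∧
      5 + sp d a + (d : ℝ) ^ (10 * ε₀) ≤ (d : ℝ) ^ (1 / 200 : ℝ) ∧
      8 ≤ ε * d ∧ sp d a + (d : ℝ) ^ (1 - ε₀) ≤ ε * d ∧
      4 * (d : ℝ) ^ (-ε₀) ≤ ε ∧ 4 * sp d a ≤ ε * (d : ℝ) ^ (1 - a) ∧
      ∀ D r : ℕ, (d : ℝ) ≤ C * D → (r : ℝ) + 2 ≤ (D : ℝ) ^ (1 - a / 3) → (r : ℝ) ≤ D / 2 := by
  obtain ⟨n1, k1⟩ := ev 7 (1 / 250) (1 / 200) (by norm_num)
  obtain ⟨n2, k2⟩ := ev (8 / ε) 0 1 (by norm_num)
  obtain ⟨n3, k3⟩ := ev (2 / ε) (a / 10) 1 (by linarith)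
  obtain ⟨n4, k4⟩ := ev (2 / ε) (1 - ε₀) 1 (by linarith)
  obtain ⟨n5, k5⟩ := ev (4 / ε) (-ε₀) 0 (by linarith)
  obtain ⟨n6, k6⟩ := ev (4 / ε) (a / 10) (1 - a) (by linarith)
  obtain ⟨n7, k7⟩ := ev 2 (1 - a / 3) 1 (by linarith)
  refine ⟨n1 + n2 + n3 + n4 + n5 + n6 + ⌈C * n7⌉₊, fun d hd => ?_⟩
  have hd1 := (k1 d (by omega)).1
  have hdr : (1 : ℝ) ≤ d := by exact_mod_cast hd1
  refine ⟨hd1, ?_, ?_, ?_, ?_, ?_, ?_⟩
  · have e1 := (k1 d (by omega)).2
    have e2 : sp d a ≤ (d : ℝ) ^ (1 / 250 : ℝ) :=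
      Real.rpow_le_rpow_of_exponent_le hdr (by linarith)
    have e3 : (d : ℝ) ^ (10 * ε₀) ≤ (d : ℝ) ^ (1 / 250 : ℝ) :=
      Real.rpow_le_rpow_of_exponent_le hdr (by linarith)
    have e4 : (1 : ℝ) ≤ (d : ℝ) ^ (1 / 250 : ℝ) := Real.one_le_rpow hdr (by norm_num)
    linarith
  · have e1 := (k2 d (by omega)).2
    rw [Real.rpow_zero, Real.rpow_one, mul_one, div_le_iff₀ hε] at e1
    linarith
  · have e1 := (k3 d (by omega)).2
    have e2 := (k4 d (by omega)).2
    rw [Real.rpow_one, div_mul_eq_mul_div, div_le_iff₀ hε] at e1 e2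
    unfold sp
    linarith
  · have e1 := (k5 d (by omega)).2
    rw [Real.rpow_zero, div_mul_eq_mul_div, div_le_iff₀ hε] at e1
    linarith
  · have e1 := (k6 d (by omega)).2
    rw [div_mul_eq_mul_div, div_le_iff₀ hε] at e1
    unfold sp
    linarith
  · intro D r hD hr
    have h3 : C * n7 ≤ C * D := by
      refine le_trans ?_ hD
      refine le_trans (Nat.le_ceil _) ?_
      exact_mod_cast (by omega : ⌈C * n7⌉₊ ≤ d)
    have h4 : (n7 : ℝ) ≤ D := le_of_mul_le_mul_left h3 (by linarith)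
    have h5 : n7 ≤ D := by exact_mod_cast h4
    have e1 := (k7 D h5).2
    rw [Real.rpow_one] at e1
    linarith

end Num

end Pool.Agent.Work.MP_db9399_ox.helper35
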