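import Pool.Agent.Work.MP_db9399_ox_helper35.OXDB

/-!
# MP_db9399, block OXD of OUTX (helper35): the dummies are dropped
-/

set_option autoImplicit false

namespace Pool.Agent.Work.MP_db9399_ox.helper35

open Finset Classical
open Pool.Agent.Work.MP_db9399_all (nb)
open Pool.Agent.Work.MP_db9399_cg (sp)
open Pool.Agent.Work.MP_db9399_sg
open Pool.Agent.Work.MP_db9399_sg.helper79 (mem_nsd mem_nod)

universe u

theorem stmt_OXD : Stmt_OXD.{u} := by
  intro ε₀ C₀ C C2 ε hε0 hε0' hC0 hC4 hC2 hε hε1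
  refine ⟨C₀ + 16 * C + C2, by positivity, ?_⟩
  intro a a1 MS δ β c1 C' ρ0 ρ2 ε1 ε2 ha haa ha' he1 he1' hρ hρC hε2 hρ2
  have ha1 : 0 < a1 := ha.trans_le haa
  obtain ⟨d0, hd0⟩ := nums ε₀ C ε a1 hε0 hε0' hC4 hε ha1 ha'
  obtain ⟨d1, hd1'⟩ := nums ε₀ C ε2 a1 hε0 hε0' hC4 hε2 ha1 ha'
  obtain ⟨d2, hd2⟩ := nums ε₀ C ε a hε0 hε0' hC4 hε ha (haa.trans ha')
  refine ⟨max (max d0 d1) d2, ?_⟩
  intro W Y I I' J _ _ _ _ _ P cl E H Gh S O U K Km A Ex Exc nd pr d D r g L N0 N F c hd hC hPr
    hHE hR hM hN hO1 hO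
  obtain ⟨hd1, hn1, hn2, -, -, -, -⟩ := hd0 d (le_trans (by simp) hd)
  obtain ⟨-, -, -, hn3, hn4, hn5, -⟩ := hd1' d (le_trans (by simp) hd)
  obtain ⟨-, -, -, -, -, -, hn6⟩ := hd2 d (le_trans (by simp) hd)
  have hdr : (1 : ℝ) ≤ d := by exact_mod_cast hd1
  have hdp : (0 : ℝ) < d := by linarith
  have hsp : sp d a ≤ sp d a1 := Real.rpow_le_rpow_of_exponent_le hdr (by linarith)
  set Wf : Finset (W ⊕ Y) := univ.map Function.Embedding.inl with hWf
  have hinl : ∀ w : W, (Sum.inl w : W ⊕ Y) ∈ Wf := fun w =>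
    Finset.mem_map.mpr ⟨w, Finset.mem_univ _, rfl⟩
  have hinr : ∀ y : Y, (Sum.inr y : W ⊕ Y) ∉ Wf := by
    intro y hy
    rw [hWf, Finset.mem_map] at hy
    obtain ⟨w, -, hw⟩ := hy
    exact absurd hw Sum.inl_ne_inr
  have hSG : ∀ j, S j ≤ Gh j := fun j => (hR j).sub
  have hFG : ∀ b v, F b v ≠ v → F b v = N b v ∨ (S (cl b)).Adj v (F b v) := hO.FG
  have hFz : ∀ b v, v ∈ fzN (O.map Function.Embedding.inl) c N b → F b v = v := hO.Fz
  have hFF := hO.FF
  -- the matchings on the real vertices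
  obtain ⟨f, hf⟩ : ∃ f : Fin P → W → W, ∀ b v, f b v =
      Sum.elim id (fun _ => v) (F b (Sum.inl v)) := ⟨_, fun _ _ => rfl⟩
  have hfl : ∀ b v w, F b (Sum.inl v) = Sum.inl w → f b v = w := by
    intro b v w h
    rw [hf, h]
    rfl
  have hfr : ∀ b v y, F b (Sum.inl v) = Sum.inr y → f b v = v := by
    intro b v y h
    rw [hf, h]
    rfl
  have hf1 : ∀ b v w, v ≠ w → (f b v = w ↔ F b (Sum.inl v) = Sum.inl w) := by
    intro b v w hvw
    constructor
    · intro h
      cases h1 : F b (Sum.inl v) with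
      | inl w' =>
        rw [hfl b v w' h1] at h
        rw [h]
      | inr y =>
        rw [hfr b v y h1] at h
        exact absurd h hvw
    · exact hfl b v w
  have hf2 : ∀ b v, f b v ≠ v ↔ RF Wf F b (Sum.inl v) := by
    intro b v
    constructor
    · intro h
      have h1 := (hf1 b v (f b v) (Ne.symm h)).mp rfl
      refine ⟨?_, hinl v, ?_⟩
      · rw [h1]
        exact fun e => h (Sum.inl_injective e)
      · rw [h1]
        exact hinl _
    · rintro ⟨h1, -, h3⟩
      cases h4 : F b (Sum.inl v) with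
      | inl w =>
        rw [hfl b v w h4]
        rintro rfl
        exact h1 h4
      | inr y =>
        rw [h4] at h3
        exact absurd h3 (hinr y)
  have hRr : ∀ b v, RF Wf F b v → ((H (cl b)).map Function.Embedding.inl).Adj v (F b v) := by
    rintro b v ⟨h1, h2, h3⟩
    rcases Fpair hC hSG hM hN hFG h1 with h4 | h4
    · exact h4.2.2
    · exact absurd ⟨h2, h3⟩ h4.1
  have hfH : ∀ b v, f b v ≠ v → (H (cl b)).Adj v (f b v) := by
    intro b v h
    have h1 := hRr b _ ((hf2 b v).mp h)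
    rw [(hf1 b v (f b v) (Ne.symm h)).mp rfl, SimpleGraph.map_adj] at h1
    obtain ⟨x, y, h2, h3, h4⟩ := h1
    have h5 : x = v := Sum.inl_injective h3
    have h6 : y = f b v := Sum.inl_injective h4
    rw [h5, h6] at h2
    exact h2
  have hD2 : ∀ j, (r j : ℝ) ≤ D j / 2 := fun j => hn6 (D j) (r j) (hC.Dd j).2 (hC.rr j).2.2
  -- the numbers of the real pairs in the nodes
  have hcnt : ∀ b i s, (((nsd (fun v => nd (cl b) (Sum.inl v)) i s).filter
      fun v => f b v ≠ v).card : ℝ) =
      (((nsd (nd (cl b)) i s).filter fun v => RF Wf F b v).card : ℝ) := by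
    intro b i s
    obtain ⟨q, hq⟩ : ∃ q : W → Prop, ∀ v, q v ↔ f b v ≠ v := ⟨_, fun _ => Iff.rfl⟩
    have h1 := card_tr (nd (cl b)) i s (RF Wf F b) q (fun w => by rw [hq, hf2])
      (fun y h => hinr y h.2.1)
    have h2 : ((nsd (fun v => nd (cl b) (Sum.inl v)) i s).filter fun v => q v) =
        (nsd (fun v => nd (cl b) (Sum.inl v)) i s).filter fun v => f b v ≠ v := by
      ext v
      rw [Finset.mem_filter, Finset.mem_filter, hq]
    rw [h2] at h1
    exact_mod_cast h1
  obtain ⟨dc, hdc⟩ : ∃ dc : Fin P → I → ℝ, ∀ b i, dc b i =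
      (((nod (nd (cl b)) i).filter fun v => c (N b v) = some b).card : ℝ) :=
    ⟨_, fun _ _ => rfl⟩
  obtain ⟨dm, hdm⟩ : ∃ dm : Fin P → I → ℝ, ∀ b i, dm b i =
      mss (O.map Function.Embedding.inl) (nnj nd) c N F (cl b) i b := ⟨_, fun _ _ => rfl⟩
  have hdiff : ∀ b i, |(sgn (fun v => nd (cl b) (Sum.inl v)) f i b : ℝ) -
      (sgn (nd (cl b)) N0 i b : ℝ)| ≤ dc b i + dm b i := by
    intro b i
    have h1 := sgn_diff hC hSG hM hN hFF hFG hFz b i
    rw [hdc, hdm]
    have h2 : (sgn (fun v => nd (cl b) (Sum.inl v)) f i b : ℝ) =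
        (((nsd (nd (cl b)) i false).filter fun v => RF Wf F b v).card : ℝ) -
        ((nsd (nd (cl b)) i true).filter fun v => RF Wf F b v).card := by
      rw [← hcnt, ← hcnt]
      unfold sgn
      push_cast
      ring
    rw [h2]
    exact h1
  have hcard : ∀ j i, ((univ.filter fun v => nnj nd j v = some i).card : ℝ) =
      2 * (nsd (nd j) i false).card := by
    intro j i
    have h1 : (univ.filter fun v => nnj nd j v = some i) = nsd (nd j) i false ∪ nsd (nd j) i true := by
      ext v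
      rw [Finset.mem_filter, Finset.mem_union, mem_nsd, mem_nsd]
      unfold nnj
      constructor
      · rintro ⟨-, h⟩
        rw [Option.map_eq_some_iff] at h
        obtain ⟨⟨i', s⟩, h1, h2⟩ := h
        have h3 : i' = i := h2
        subst h3
        cases s
        · exact Or.inl h1
        · exact Or.inr h1
      · rintro (h | h)
        · exact ⟨Finset.mem_univ _, by rw [h]; rfl⟩
        · exact ⟨Finset.mem_univ _, by rw [h]; rfl⟩
    have h2 : Disjoint (nsd (nd j) i false) (nsd (nd j) i true) := by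
      rw [Finset.disjoint_left]
      intro v h1 h2
      rw [mem_nsd] at h1 h2
      have := h1.symm.trans h2
      simp at this
    rw [h1, Finset.card_union_of_disjoint h2, (hC.wld j).sz i]
    push_cast
    ring
  obtain ⟨X, hX⟩ : ∃ X : J → I → ℝ, ∀ j i, X j i =
      (∑ v ∈ nod (fun v => nd j (Sum.inl v)) i, ((nb (H j) v).card : ℝ)) / d :=
    ⟨_, fun _ _ => rfl⟩
  have hX0 : ∀ j i, 0 ≤ X j i := by
    intro j i
    rw [hX]
    exact div_nonneg (Finset.sum_nonneg fun _ _ => Nat.cast_nonneg _) (Nat.cast_nonneg _)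
  have hE : ∀ j i, ∑ b with cl b = j, (dc b i + dm b i) ≤
      C2 * X j i + ε1 * d + ε / 2 * (nsd (nd j) i false).card + 4 := by
    intro j i
    have h1 := hO1.nds j i
    have h2 := hO.Fl j i
    rw [hcard, ] at h2
    rw [sum_nod, ← hX] at h1
    have h3 : ∑ b with cl b = j, dc b i = ∑ b with cl b = j,
        (((nod (nd j) i).filter fun v => c (N b v) = some b).card : ℝ) := by
      refine Finset.sum_congr rfl fun b hb => ?_
      rw [Finset.mem_filter] at hb
      rw [hdc, hb.2]
    have h4 : ∑ b with cl b = j, dm b i = ∑ b with cl b = j,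
        mss (O.map Function.Embedding.inl) (nnj nd) c N F j i b := by
      refine Finset.sum_congr rfl fun b hb => ?_
      rw [Finset.mem_filter] at hb
      rw [hdm, hb.2]
    rw [Finset.sum_add_distrib, h3, h4]
    linarith
  have hρ1 : 1000 * C' ^ 2 * ρ0 ≤ ε / 4 := by linarith
  have hρ0' : 0 ≤ 1000 * C' ^ 2 * ρ0 := by positivity
  have hρd : 1000 * C' ^ 2 * ρ0 * d ≤ ε / 4 * d := mul_le_mul_of_nonneg_right hρ1 hdp.le
  have hε1d : ε1 * d ≤ ε / 4 * d := mul_le_mul_of_nonneg_right he1' hdp.le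
  have hDr : ∀ j, 0 ≤ (D j : ℝ) - r j := by
    intro j
    have h1 := hD2 j
    have h2 : (0 : ℝ) ≤ D j := Nat.cast_nonneg _
    linarith
  have hDr' : ∀ j, (1 + ε1) * ((D j : ℝ) - r j) ≤ (1 + ε) * ((D j : ℝ) - r j) := by
    intro j
    exact mul_le_mul_of_nonneg_right (by linarith) (hDr j)
  have hCX : ∀ j i, C2 * X j i ≤ (C₀ + 16 * C + C2) * X j i := by
    intro j i
    exact mul_le_mul_of_nonneg_right (by linarith) (hX0 j i)
  have hm0 : ∀ j i, (0 : ℝ) ≤ (nsd (nd j) i false).card := fun j i => Nat.cast_nonneg _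
  have hεm : ∀ j i, ε / 2 * (nsd (nd j) i false).card ≤ ε * (nsd (nd j) i false).card := by
    intro j i
    exact mul_le_mul_of_nonneg_right (by linarith) (hm0 j i)
  refine ⟨f, hf1, ?_⟩
  constructor
  · -- ff
    intro b v
    cases h1 : F b (Sum.inl v) with
    | inl w =>
      rw [hfl b v w h1]
      apply hfl
      rw [← h1, hFF]
    | inr y => rw [hfr b v y h1, hfr b v y h1]
  · exact hfH
  · -- fd
    intro b b' v h1 h2
    have h3 := (hf1 b v (f b v) (Ne.symm h1)).mp rfl
    have h4 := (hf1 b' v (f b v) (Ne.symm h1)).mp h2.symm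
    refine hO.Fd b b' (Sum.inl v) ?_ (h3.trans h4.symm)
    rw [h3]
    exact fun e => h1 (Sum.inl_injective e)
  · -- fo
    intro b v h
    exact hfl b v v (hO.Fo b _ h)
  · -- mis
    intro v hv
    have hv' : (Sum.inl v : W ⊕ Y) ∈ O.map Function.Embedding.inl :=
      Finset.mem_map.mpr ⟨v, hv, rfl⟩
    refine le_trans (Finset.card_le_card ?_) (hO.F1 (Sum.inl v) hv')
    intro b hb
    simp only [Finset.mem_filter, Finset.mem_univ, true_and] at hb ⊢
    refine ⟨?_, hb.2⟩
    by_contra h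
    rcases Fpair hC hSG hM hN hFG h with h1 | ⟨-, i, s, h1, -⟩
    · exact (hf2 b v).mpr ⟨h, h1.1, h1.2.1⟩ hb.1
    · exact notO hC (by rw [h1]; simp) hv'
  · -- ind
    intro v hv w hw b b' h1 h2 h3 h4 h5
    have hO' : ∀ x ∈ O, (Sum.inl x : W ⊕ Y) ∈ O.map Function.Embedding.inl := fun x hx =>
      Finset.mem_map.mpr ⟨x, hx, rfl⟩
    have hmiss : ∀ x ∈ O, ∀ b, f b x = x → F b (Sum.inl x) = Sum.inl x := by
      intro x hx b hbx
      by_contra h
      rcases Fpair hC hSG hM hN hFG h with h1 | ⟨-, i, s, h1, -⟩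
      · exact (hf2 b x).mpr ⟨h, h1.1, h1.2.1⟩ hbx
      · exact notO hC (by rw [h1]; simp) (hO' x hx)
    obtain ⟨b'', hb''⟩ := hO.Fs (Sum.inl v) (Sum.inl w) b b' (hO' v hv) (hO' w hw)
      (hmiss v hv b h1) h2 (hmiss w hw b' h3) h4
      ⟨fun e => h5.ne (Sum.inl_injective e), Or.inl ⟨by
        rw [SimpleGraph.map_adj]
        exact ⟨v, w, h5, rfl, rfl⟩, hO' v hv, hO' w hw⟩⟩
    exact ⟨b'', hfl b'' v w hb''⟩
  · -- sup
    intro b i
    have h1 := hdiff b i
    have h2 := hM.win b i
    have h3 := hO1.ndc b i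
    have h4 := hO.Fn (cl b) i b rfl
    rw [← hdc] at h3
    rw [← hdm] at h4
    have h5 : |sdg ((H (cl b)).map Function.Embedding.inl) (nd (cl b)) i /
        ((D (cl b) : ℝ) - r (cl b))| ≤ 2 := by
      have e1 := hC.bal (cl b) i
      have e2 := hD2 (cl b)
      have e3 : 0 ≤ (D (cl b) : ℝ) - r (cl b) := hDr _
      have e4 : (1 : ℝ) ≤ D (cl b) := by
        have e5 := (hC.Dd (cl b)).2
        by_contra h
        push Not at h
        have e6 : D (cl b) = 0 := by
          have : D (cl b) < 1 := by exact_mod_cast h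
          omega
        rw [e6] at e5
        simp at e5
        linarith
      rw [abs_div, abs_of_nonneg e3, div_le_iff₀ (by linarith)]
      linarith
    have h6 : |(sgn (nd (cl b)) N0 i b : ℝ)| ≤ 4 + 1000 * C' ^ 2 * ρ0 := by
      have e1 := abs_add_le ((sgn (nd (cl b)) N0 i b : ℝ) -
        sdg ((H (cl b)).map Function.Embedding.inl) (nd (cl b)) i / ((D (cl b) : ℝ) - r (cl b)))
        (sdg ((H (cl b)).map Function.Embedding.inl) (nd (cl b)) i /
          ((D (cl b) : ℝ) - r (cl b)))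
      rw [sub_add_cancel] at e1
      linarith
    have h7 := abs_add_le ((sgn (fun v => nd (cl b) (Sum.inl v)) f i b : ℝ) -
      (sgn (nd (cl b)) N0 i b : ℝ)) (sgn (nd (cl b)) N0 i b : ℝ)
    rw [sub_add_cancel] at h7
    linarith
  · -- win
    intro j i
    rw [← hX, ← sdg_tr]
    have h1 : ∑ b with cl b = j, |(sgn (fun v => nd j (Sum.inl v)) f i b : ℝ) -
        sdg ((H j).map Function.Embedding.inl) (nd j) i / ((D j : ℝ) - r j)| ≤
        ∑ b with cl b = j, (|(sgn (nd j) N0 i b : ℝ) -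
        sdg ((H j).map Function.Embedding.inl) (nd j) i / ((D j : ℝ) - r j)| +
          (dc b i + dm b i)) := by
      refine Finset.sum_le_sum fun b hb => ?_
      rw [Finset.mem_filter] at hb
      obtain ⟨-, hb⟩ := hb
      have e1 := hdiff b i
      rw [hb] at e1
      have e2 := abs_add_le ((sgn (fun v => nd j (Sum.inl v)) f i b : ℝ) -
        (sgn (nd j) N0 i b : ℝ)) ((sgn (nd j) N0 i b : ℝ) -
        sdg ((H j).map Function.Embedding.inl) (nd j) i / ((D j : ℝ) - r j))
      rw [sub_add_sub_cancel] at e2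
      linarith
    rw [Finset.sum_add_distrib] at h1
    have h2 := hM.winS j i
    have h3 := hE j i
    have h4 := hDr' j
    have h5 := hCX j i
    have h6 := hεm j i
    linarith
  · -- winP
    intro j i'
    have h1 : ∑ b with cl b = j, |sgP (fun v => nd j (Sum.inl v)) pr f i' b -
        (∑ i with pr i = i', sdg (H j) (fun v => nd j (Sum.inl v)) i) / ((D j : ℝ) - r j)| ≤
        ∑ b with cl b = j, (|sgP (nd j) pr N0 i' b -
        (∑ i with pr i = i', sdg ((H j).map Function.Embedding.inl) (nd j) i) /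
          ((D j : ℝ) - r j)| + ∑ i with pr i = i', (dc b i + dm b i)) := by
      refine Finset.sum_le_sum fun b hb => ?_
      rw [Finset.mem_filter] at hb
      obtain ⟨-, hb⟩ := hb
      have e0 : ∑ i with pr i = i', sdg (H j) (fun v => nd j (Sum.inl v)) i =
          ∑ i with pr i = i', sdg ((H j).map Function.Embedding.inl) (nd j) i :=
        Finset.sum_congr rfl fun i _ => (sdg_tr _ _ _).symm
      rw [e0]
      have e1 : |sgP (fun v => nd j (Sum.inl v)) pr f i' b - sgP (nd j) pr N0 i' b| ≤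
          ∑ i with pr i = i', (dc b i + dm b i) := by
        unfold sgP
        rw [← Finset.sum_sub_distrib]
        refine (Finset.abs_sum_le_sum_abs _ _).trans (Finset.sum_le_sum fun i _ => ?_)
        have e2 := hdiff b i
        rw [hb] at e2
        exact e2
      have e2 := abs_add_le (sgP (fun v => nd j (Sum.inl v)) pr f i' b -
        sgP (nd j) pr N0 i' b) (sgP (nd j) pr N0 i' b -
        (∑ i with pr i = i', sdg ((H j).map Function.Embedding.inl) (nd j) i) /
          ((D j : ℝ) - r j))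
      rw [sub_add_sub_cancel] at e2
      linarith
    rw [Finset.sum_add_distrib, Finset.sum_comm] at h1
    have h2 := hM.winPS j i'
    have h3 : ∑ i with pr i = i', ∑ b with cl b = j, (dc b i + dm b i) ≤
        ∑ i with pr i = i', ((C₀ + 16 * C + C2) *
          ((∑ v ∈ nod (fun v => nd j (Sum.inl v)) i, ((nb (H j) v).card : ℝ)) / d) +
          ε * (nsd (nd j) i false).card + ε * d) := by
      refine Finset.sum_le_sum fun i _ => ?_
      rw [← hX]
      have h3 := hE j i
      have h5 := hCX j i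
      have h6 := hεm j i
      linarith
    have h4 := hDr' j
    linarith
  · -- sm
    intro j i
    rw [← hX, ← sdg_tr]
    have h1 : |∑ b with cl b = j, (sgn (fun v => nd j (Sum.inl v)) f i b : ℝ) -
        ∑ b with cl b = j, (sgn (nd j) N0 i b : ℝ)| ≤ ∑ b with cl b = j, (dc b i + dm b i) := by
      rw [← Finset.sum_sub_distrib]
      refine (Finset.abs_sum_le_sum_abs _ _).trans (Finset.sum_le_sum fun b hb => ?_)
      rw [Finset.mem_filter] at hb
      obtain ⟨-, hb⟩ := hb
      have e1 := hdiff b i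
      rw [hb] at e1
      exact e1
    have h2 := hM.sum j i
    have e2 := abs_add_le (∑ b with cl b = j, (sgn (fun v => nd j (Sum.inl v)) f i b : ℝ) -
        ∑ b with cl b = j, (sgn (nd j) N0 i b : ℝ)) (∑ b with cl b = j, (sgn (nd j) N0 i b : ℝ) -
        sdg ((H j).map Function.Embedding.inl) (nd j) i)
    rw [sub_add_sub_cancel] at e2
    have h3 := hE j i
    have h5 := hCX j i
    have h6 := hεm j i
    linarith
  · -- exc
    intro j i
    rw [← hX, ← sdg_tr]
    have h1 : ∑ b with cl b = j, max (|(sgn (fun v => nd j (Sum.inl v)) f i b : ℝ) -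
        sdg ((H j).map Function.Embedding.inl) (nd j) i / ((D j : ℝ) - r j)| - 5 / 2) 0 ≤
        ∑ b with cl b = j, (dc b i + dm b i) := by
      refine Finset.sum_le_sum fun b hb => ?_
      rw [Finset.mem_filter] at hb
      obtain ⟨-, hb⟩ := hb
      have e1 := hdiff b i
      have e3 := hM.win b i
      rw [hb] at e1 e3
      have e2 := abs_add_le ((sgn (fun v => nd j (Sum.inl v)) f i b : ℝ) -
        (sgn (nd j) N0 i b : ℝ)) ((sgn (nd j) N0 i b : ℝ) -
        sdg ((H j).map Function.Embedding.inl) (nd j) i / ((D j : ℝ) - r j))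
      rw [sub_add_sub_cancel] at e2
      have e4 : 0 ≤ |(sgn (fun v => nd j (Sum.inl v)) f i b : ℝ) - (sgn (nd j) N0 i b : ℝ)| :=
        abs_nonneg _
      exact max_le (by linarith) (by linarith)
    have h3 := hE j i
    have h5 := hCX j i
    have h6 := hεm j i
    linarith
  · -- load
    intro b i s
    rw [hcnt]
    have h2 := load_real hC hM hN hO b i s
    rw [sum_nsd] at h2
    obtain ⟨Z, hZ⟩ : ∃ Z : ℝ, Z = ∑ v ∈ nsd (fun w => nd (cl b) (Sum.inl w)) i s,
      ((nb (H (cl b)) v).card : ℝ) := ⟨_, rfl⟩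
    have hZ0 : 0 ≤ Z := by
      rw [hZ]
      exact Finset.sum_nonneg fun _ _ => Nat.cast_nonneg _
    rw [← hZ] at h2 ⊢
    have h4 : 8 * (Z / ((D (cl b) : ℝ) - r (cl b))) ≤ 16 * C * (Z / d) := by
      have e1 := (hC.Dd (cl b)).2
      have e2 := hD2 (cl b)
      have e3 : (0 : ℝ) < D (cl b) := by
        by_contra h
        push Not at h
        have : (D (cl b) : ℝ) = 0 := le_antisymm h (Nat.cast_nonneg _)
        rw [this] at e1
        simp at e1
        linarith
      have e4 : 0 < (D (cl b) : ℝ) - r (cl b) := by linarith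
      have e5 : (d : ℝ) ≤ 2 * C * ((D (cl b) : ℝ) - r (cl b)) := by
        have : C * (D (cl b) : ℝ) ≤ C * (2 * ((D (cl b) : ℝ) - r (cl b))) :=
          mul_le_mul_of_nonneg_left (by linarith) (by linarith)
        linarith
      rw [← mul_div_assoc, ← mul_div_assoc, div_le_div_iff₀ e4 hdp]
      have := mul_le_mul_of_nonneg_left e5 (by linarith : 0 ≤ 8 * Z)
      linarith
    have h5 : 0 ≤ (C₀ + C2) * (Z / d) := by positivity
    have h6 : (C₀ + 16 * C + C2) * (Z / d) = 16 * C * (Z / d) + (C₀ + C2) * (Z / d) := by ring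
    rw [h6]
    linarith
  · -- lft
    intro j v hv
    have hv' : nd j (Sum.inl v) ≠ none := hv
    have h1 := lft_real hC hR hM hN hO1 hC0.le hO j (Sum.inl v) hv'
    rw [nb_map_card] at h1
    have e2 : ∑ j', ((nb ((H j').map Function.Embedding.inl) (Sum.inl v : W ⊕ Y)).card : ℝ) =
        ∑ j', ((nb (H j') v).card : ℝ) := Finset.sum_congr rfl fun j' _ => by
          rw [nb_map_card]
    rw [e2] at h1
    have h2 : ((univ.filter fun b => cl b = j ∧ RF Wf F b (Sum.inl v)).card : ℝ) ≤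
        ((univ.filter fun b => cl b = j ∧ f b v ≠ v).card : ℝ) := by
      exact_mod_cast Finset.card_le_card (fun b hb => by
        rw [Finset.mem_filter] at hb ⊢
        exact ⟨hb.1, hb.2.1, (hf2 b v).mpr hb.2.2⟩)
    obtain ⟨Z, hZ⟩ : ∃ Z : ℝ, Z = ∑ j', ((nb (H j') v).card : ℝ) := ⟨_, rfl⟩
    rw [← hZ] at h1 ⊢
    have h7 : ((nb (H j) v).card : ℝ) ≤ Z := by
      rw [hZ]
      exact Finset.single_le_sum (f := fun j' => ((nb (H j') v).card : ℝ))
        (fun j' _ => Nat.cast_nonneg _) (Finset.mem_univ j)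
    have hZ0 : 0 ≤ Z := le_trans (Nat.cast_nonneg _) h7
    have hr0 : (0 : ℝ) ≤ r j := Nat.cast_nonneg _
    have hrd : 0 ≤ (r j : ℝ) / d := by positivity
    have e1 := (hC.Dd j).2
    have e3 : (0 : ℝ) < D j := by
      by_contra h
      push Not at h
      have : (D j : ℝ) = 0 := le_antisymm h (Nat.cast_nonneg _)
      rw [this] at e1
      simp at e1
      linarith
    have h8 : 2 * (((nb (H j) v).card : ℝ) / D j) * r j ≤ 2 * C * (r j / d) * Z := by
      have e4 : ((nb (H j) v).card : ℝ) / D j ≤ C * Z / d := by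
        rw [div_le_div_iff₀ e3 hdp]
        calc ((nb (H j) v).card : ℝ) * d ≤ Z * (C * D j) :=
              mul_le_mul h7 e1 hdp.le hZ0
          _ = C * Z * D j := by ring
      calc 2 * (((nb (H j) v).card : ℝ) / D j) * r j ≤ 2 * (C * Z / d) * r j := by
            apply mul_le_mul_of_nonneg_right _ hr0
            linarith
        _ = 2 * C * (r j / d) * Z := by ring
    have h11 : 8 * ρ2 * r j ≤ ε2 / 2 * r j := mul_le_mul_of_nonneg_right (by linarith) hr0
    have h12 : (d : ℝ) ^ (-ε₀) * r j ≤ ε2 / 4 * r j :=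
      mul_le_mul_of_nonneg_right (by linarith) hr0
    have h13 : sp d a1 ≤ ε2 / 4 * r j := by
      have f1 : (d : ℝ) ^ (1 - a1) ≤ r j :=
        (Real.rpow_le_rpow_of_exponent_le hdr (by linarith)).trans (hC.rd j)
      have f2 := mul_le_mul_of_nonneg_left f1 (by linarith : 0 ≤ ε2 / 4)
      linarith
    have h14 : (C₀ + 16 * C + C2) * (r j / d) * Z = C₀ * (r j / d) * Z + 2 * C * (r j / d) * Z +
        (14 * C + C2) * (r j / d) * Z := by ring
    have h15 : 0 ≤ (14 * C + C2) * (r j / d) * Z := by positivity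
    rw [h14]
    have h16 : (2 * (((nb (H j) v).card : ℝ) / D j) + 8 * ρ2) * r j =
        2 * (((nb (H j) v).card : ℝ) / D j) * r j + 8 * ρ2 * r j := by ring
    rw [h16] at h1
    linarith

end Pool.Agent.Work.MP_db9399_ox.helper35
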