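import Pool.Agent.Work.MP_db9399_ox_helper35.OXDA

/-!
# MP_db9399, block OXD of OUTX (helper35), part B: what the engine does at the gadgets
-/

set_option autoImplicit false

namespace Pool.Agent.Work.MP_db9399_ox.helper35

open Finset Classical
open Pool.Agent.Work.MP_db9399_all (nb)
open Pool.Agent.Work.MP_db9399_cg (sp)
open Pool.Agent.Work.MP_db9399_sg
open Pool.Agent.Work.MP_db9399_sg.helper79 (mem_nsd mem_nod)

universe u

variable {V I I' J : Type u} [Fintype V] [Fintype I] [Fintype I'] [Fintype J] {P : ℕ}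
  {cl : Fin P → J} {H Gh S : J → SimpleGraph V} {O W K : Finset V} {A Ex Exc : J → Finset V}
  {nd : J → V → Option (I × Bool)} {pr : I → I'} {d : ℕ} {D r : J → ℕ}
  {a a1 MS g δ β c1 C C' ρ0 ε1 ρ1 : ℝ} {L : ℕ} {N0 N F : Fin P → V → V} {c : V → Option (Fin P)}

/-- real pairs of the matching `F b` -/
def RF (W : Finset V) (F : Fin P → V → V) (b : Fin P) (v : V) : Prop :=
  F b v ≠ v ∧ v ∈ W ∧ F b v ∈ W

theorem memW (hC : Cls H Gh O W A Ex nd pr d D r a MS g δ β c1 C C' ρ0)
    (hM : Mt0 H S cl O nd pr d D r a ε1 ρ1 L N0) {b : Fin P} {v : V} (h : N0 b v ≠ v) :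
    v ∈ W ∧ N0 b v ∈ W :=
  ⟨hC.HW _ _ _ (hM.NG b v h).1, hC.HW _ _ _ (hM.NG b v h).1.symm⟩

theorem notO (hC : Cls H Gh O W A Ex nd pr d D r a MS g δ β c1 C C' ρ0) {j : J} {v : V}
    (h : nd j v ≠ none) : v ∉ O := fun hO =>
  h (((hC.wld j).cov v ((hC.wld j).nA v h)).mp hO)

/-- pairs of `N b` -/
theorem Npair (hC : Cls H Gh O W A Ex nd pr d D r a MS g δ β c1 C C' ρ0)
    (hM : Mt0 H S cl O nd pr d D r a ε1 ρ1 L N0) (hN : Mt1 S cl W nd N0 N) {b : Fin P} {v : V}
    (h : N b v ≠ v) : (N0 b v ≠ v ∧ (H (cl b)).Adj v (N b v) ∧ v ∈ W ∧ N b v ∈ W) ∨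
      (N0 b v = v ∧ ¬ (v ∈ W ∧ N b v ∈ W) ∧
        ∃ i s, nd (cl b) v = some (i, s) ∧ nd (cl b) (N b v) = some (i, !s)) := by
  by_cases h0 : N0 b v = v
  · obtain ⟨i, s, h1, h2, -, h3⟩ := hN.fil b v h0 h
    exact Or.inr ⟨h0, not_and_or.mpr h3, i, s, h1, h2⟩
  · refine Or.inl ⟨h0, ?_⟩
    rw [hN.ext b v h0]
    exact ⟨(hM.NG b v h0).1, memW hC hM h0⟩

/-- pairs of `F b` -/
theorem Fpair (hC : Cls H Gh O W A Ex nd pr d D r a MS g δ β c1 C C' ρ0)
    (hS : ∀ j, S j ≤ Gh j)
    (hM : Mt0 H S cl O nd pr d D r a ε1 ρ1 L N0) (hN : Mt1 S cl W nd N0 N)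
    (hF : ∀ b v, F b v ≠ v → F b v = N b v ∨ (S (cl b)).Adj v (F b v)) {b : Fin P} {v : V}
    (h : F b v ≠ v) : (v ∈ W ∧ F b v ∈ W ∧ (H (cl b)).Adj v (F b v)) ∨
      (¬ (v ∈ W ∧ F b v ∈ W) ∧
        ∃ i s, nd (cl b) v = some (i, s) ∧ nd (cl b) (F b v) = some (i, !s)) := by
  rcases hF b v h with h1 | h1
  · rw [h1] at h ⊢
    rcases Npair hC hM hN h with ⟨h2, h3, h4, h5⟩ | ⟨h2, h3, h4⟩
    · exact Or.inl ⟨h4, h5, h3⟩
    · exact Or.inr ⟨h3, h4⟩
  · by_cases h2 : (H (cl b)).Adj v (F b v)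
    · exact Or.inl ⟨hC.HW _ _ _ h2, hC.HW _ _ _ h2.symm, h2⟩
    · exact Or.inr ⟨not_and_or.mpr (hC.dum _ _ _ (hS _ h1) h2),
        (hC.wld (cl b)).gad _ _ (hS _ h1) h2⟩

/-- the signed number of the real pairs, before and after the engine -/
theorem sgn_diff (hC : Cls H Gh O W A Ex nd pr d D r a MS g δ β c1 C C' ρ0)
    (hS : ∀ j, S j ≤ Gh j)
    (hM : Mt0 H S cl O nd pr d D r a ε1 ρ1 L N0) (hN : Mt1 S cl W nd N0 N)
    (hFF : ∀ b v, F b (F b v) = v)
    (hF : ∀ b v, F b v ≠ v → F b v = N b v ∨ (S (cl b)).Adj v (F b v))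
    (hFz : ∀ b v, v ∈ fzN O c N b → F b v = v) (b : Fin P) (i : I) :
    |((((nsd (nd (cl b)) i false).filter fun v => RF W F b v).card : ℝ) -
      ((nsd (nd (cl b)) i true).filter fun v => RF W F b v).card) -
        (sgn (nd (cl b)) N0 i b : ℝ)| ≤
      (((nod (nd (cl b)) i).filter fun v => c (N b v) = some b).card : ℝ) +
        mss O (nnj nd) c N F (cl b) i b := by
  have h1 := cons (nd (cl b)) (RF W F b) (F b) (hFF b) (fun v h => h.1)
    (fun v h => ⟨by rw [hFF]; exact fun e => h.1 e.symm, h.2.2, by rw [hFF]; exact h.2.1⟩)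
    (fun v h h' => by
      rcases Fpair hC hS hM hN hF h with h2 | h2
      · exact absurd ⟨h, h2.1, h2.2.1⟩ h'
      · exact h2.2) i ((hC.wld (cl b)).sz i)
  obtain ⟨R, hR⟩ : ∃ R : V → Prop, ∀ v, R v ↔ N0 b v ≠ v := ⟨_, fun _ => Iff.rfl⟩
  have hcong : ∀ s, ((nsd (nd (cl b)) i s).filter fun v => R v) =
      (nsd (nd (cl b)) i s).filter fun v => N0 b v ≠ v := by
    intro s
    ext v
    rw [Finset.mem_filter, Finset.mem_filter, hR]
  have h2 := cons (nd (cl b)) R (N b) (hN.NN b)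
    (fun v h => by
      rw [hR] at h
      rw [hN.ext b v h]
      exact h)
    (fun v h => by
      rw [hR] at h ⊢
      rw [hN.ext b v h, hM.NN]
      exact fun e => h e.symm)
    (fun v h h' => by
      rw [hR] at h'
      rcases Npair hC hM hN h with h2 | h2
      · exact absurd h2.1 h'
      · exact h2.2.2) i ((hC.wld (cl b)).sz i)
  rw [hcong, hcong] at h2
  have h3 : ∀ s, ((nsd (nd (cl b)) i s).filter fun v => F b v = v).card =
      ((nsd (nd (cl b)) i s).filter fun v => N b v = v).card +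
      ((nsd (nd (cl b)) i s).filter fun v => F b v = v ∧ N b v ≠ v).card := by
    intro s
    rw [← Finset.card_union_of_disjoint]
    · congr 1
      ext v
      rw [Finset.mem_union, Finset.mem_filter, Finset.mem_filter, Finset.mem_filter]
      constructor
      · rintro ⟨e1, e2⟩
        by_cases e3 : N b v = v
        · exact Or.inl ⟨e1, e3⟩
        · exact Or.inr ⟨e1, e2, e3⟩
      · rintro (⟨e1, e2⟩ | ⟨e1, e2, e3⟩)
        · refine ⟨e1, hFz b v ?_⟩
          unfold fzN
          rw [Finset.mem_filter]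
          exact ⟨Finset.mem_univ _, notO hC (by rw [mem_nsd.mp e1]; simp), Or.inl e2⟩
        · exact ⟨e1, e2⟩
    · rw [Finset.disjoint_left]
      intro v e1 e2
      rw [Finset.mem_filter] at e1 e2
      exact e2.2.2 e1.2
  have h4 : ((nsd (nd (cl b)) i false).filter fun v => F b v = v ∧ N b v ≠ v).card +
      ((nsd (nd (cl b)) i true).filter fun v => F b v = v ∧ N b v ≠ v).card ≤
      ((nod (nd (cl b)) i).filter fun v => c (N b v) = some b).card +
      (univ.filter fun v => nnj nd (cl b) v = some i ∧ F b v = v ∧ v ∉ fzN O c N b).card := by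
    rw [← Finset.card_union_of_disjoint]
    · refine le_trans (Finset.card_le_card ?_) (Finset.card_union_le _ _)
      intro v hv
      have e1 : ∃ s, nd (cl b) v = some (i, s) ∧ F b v = v ∧ N b v ≠ v := by
        rw [Finset.mem_union, Finset.mem_filter, Finset.mem_filter, mem_nsd, mem_nsd] at hv
        rcases hv with hv | hv
        · exact ⟨_, hv⟩
        · exact ⟨_, hv⟩
      obtain ⟨s, e2, e3, e4⟩ := e1
      rw [Finset.mem_union, Finset.mem_filter, Finset.mem_filter]
      by_cases e5 : v ∈ fzN O c N b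
      · left
        refine ⟨mem_nod.mpr ⟨s, e2⟩, ?_⟩
        unfold fzN at e5
        rw [Finset.mem_filter] at e5
        rcases e5.2.2 with e6 | e6
        · exact absurd e6 e4
        · exact e6
      · right
        refine ⟨Finset.mem_univ _, ?_, e3, e5⟩
        unfold nnj
        rw [e2]
        rfl
    · rw [Finset.disjoint_left]
      intro v e1 e2
      rw [Finset.mem_filter, mem_nsd] at e1 e2
      have := e1.1.symm.trans e2.1
      simp at this
  have h5 : sgn (nd (cl b)) N0 i b =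
      (((nsd (nd (cl b)) i false).filter fun v => N0 b v ≠ v).card : ℤ) -
        ((nsd (nd (cl b)) i true).filter fun v => N0 b v ≠ v).card := rfl
  have h6 := h3 false
  have h7 := h3 true
  have h8 : |((((nsd (nd (cl b)) i false).filter fun v => RF W F b v).card : ℤ) -
      ((nsd (nd (cl b)) i true).filter fun v => RF W F b v).card) -
        sgn (nd (cl b)) N0 i b| ≤
      (((nod (nd (cl b)) i).filter fun v => c (N b v) = some b).card +
      (univ.filter fun v => nnj nd (cl b) v = some i ∧ F b v = v ∧ v ∉ fzN O c N b).card : ℕ) := by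
    rw [abs_le]
    constructor
    · omega
    · omega
  unfold mss
  exact_mod_cast h8

/-- the real pairs in a node -/
theorem load_diff (hC : Cls H Gh O W A Ex nd pr d D r a MS g δ β c1 C C' ρ0)
    (hM : Mt0 H S cl O nd pr d D r a ε1 ρ1 L N0) (hN : Mt1 S cl W nd N0 N)
    (hFz : ∀ b v, v ∈ fzN O c N b → F b v = v) (b : Fin P) (i : I) (s : Bool) :
    ((nsd (nd (cl b)) i s).filter fun v => RF W F b v).card ≤
      ((nsd (nd (cl b)) i s).filter fun v => N0 b v ≠ v).card +
      (univ.filter fun v => nnj nd (cl b) v = some i ∧ v ∉ fzN O c N b ∧ F b v ≠ N b v).card := by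
  refine le_trans (Finset.card_le_card ?_) (Finset.card_union_le _ _)
  intro v hv
  rw [Finset.mem_filter, mem_nsd] at hv
  obtain ⟨h1, h2, h3, h4⟩ := hv
  rw [Finset.mem_union, Finset.mem_filter, Finset.mem_filter, mem_nsd]
  by_cases h5 : F b v = N b v
  · left
    refine ⟨h1, ?_⟩
    rw [h5] at h2 h4
    rcases Npair hC hM hN h2 with h6 | h6
    · exact h6.1
    · exact absurd ⟨h3, h4⟩ h6.2.1
  · right
    refine ⟨Finset.mem_univ _, ?_, fun h => h2 (hFz b v h), h5⟩
    unfold nnj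
    rw [h1]
    rfl

/-- the colours at a vertex of a gadget -/
theorem lft_diff (hC : Cls H Gh O W A Ex nd pr d D r a MS g δ β c1 C C' ρ0)
    (hM : Mt0 H S cl O nd pr d D r a ε1 ρ1 L N0) (hN : Mt1 S cl W nd N0 N)
    (j : J) (v : V) :
    (nb (H j) v).card ≤ (univ.filter fun b => cl b = j ∧ RF W F b v).card +
      ((nb (S j) v).filter fun w => (H j).Adj v w).card +
      ((rcl N0 v).filter fun b => cl b = j ∧ v ∉ fzN O c N b ∧ F b v ≠ N b v).card +
      (univ.filter fun b => c (N b v) = some b).card := by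
  have h0 : (nb (H j) v).card ≤ ((nb (S j) v).filter fun w => (H j).Adj v w).card +
      (univ.filter fun b => cl b = j ∧ N0 b v ≠ v).card := by
    have e1 : nb (H j) v ⊆ ((nb (S j) v).filter fun w => (H j).Adj v w) ∪
        (univ.filter fun b => cl b = j ∧ N0 b v ≠ v).image fun b => N0 b v := by
      intro w hw
      rw [mem_nb] at hw
      rw [Finset.mem_union, Finset.mem_filter, mem_nb, Finset.mem_image]
      by_cases h1 : (S j).Adj v w
      · exact Or.inl ⟨h1, hw⟩
      · obtain ⟨b, h2, h3⟩ := hM.co j v w hw h1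
        refine Or.inr ⟨b, Finset.mem_filter.mpr ⟨Finset.mem_univ _, h2, ?_⟩, h3⟩
        rw [h3]
        exact hw.ne'
    exact (Finset.card_le_card e1).trans ((Finset.card_union_le _ _).trans
      (Nat.add_le_add_left Finset.card_image_le _))
  have h1 : (univ.filter fun b => cl b = j ∧ N0 b v ≠ v).card ≤
      (univ.filter fun b => cl b = j ∧ RF W F b v).card +
      ((rcl N0 v).filter fun b => cl b = j ∧ v ∉ fzN O c N b ∧ F b v ≠ N b v).card +
      (univ.filter fun b => c (N b v) = some b).card := by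
    refine le_trans (Finset.card_le_card (t := ((univ.filter fun b => cl b = j ∧ RF W F b v) ∪
      ((rcl N0 v).filter fun b => cl b = j ∧ v ∉ fzN O c N b ∧ F b v ≠ N b v)) ∪
      (univ.filter fun b => c (N b v) = some b)) ?_) ((Finset.card_union_le _ _).trans
        (Nat.add_le_add_right (Finset.card_union_le _ _) _))
    intro b hb
    rw [Finset.mem_filter] at hb
    obtain ⟨-, e1, e2⟩ := hb
    rw [Finset.mem_union, Finset.mem_union, Finset.mem_filter, Finset.mem_filter, Finset.mem_filter]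
    have e3 : N b v = N0 b v := hN.ext b v e2
    have e4 := memW hC hM e2
    by_cases e5 : F b v = N b v
    · refine Or.inl (Or.inl ⟨Finset.mem_univ _, e1, ?_, e4.1, ?_⟩)
      · rw [e5, e3]
        exact e2
      · rw [e5, e3]
        exact e4.2
    · by_cases e6 : v ∈ fzN O c N b
      · refine Or.inr ⟨Finset.mem_univ _, ?_⟩
        unfold fzN at e6
        rw [Finset.mem_filter] at e6
        rcases e6.2.2 with e7 | e7
        · rw [e3] at e7
          exact absurd e7 e2
        · exact e7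
      · refine Or.inl (Or.inr ⟨?_, e1, e6, e5⟩)
        unfold rcl
        rw [Finset.mem_filter]
        exact ⟨Finset.mem_univ _, e2⟩
  omega

/-- number of the colours of real edges at a vertex -/
theorem rcl_card (hM : Mt0 H S cl O nd pr d D r a ε1 ρ1 L N0) (v : V) :
    (rcl N0 v).card ≤ ∑ j, (nb (H j) v).card := by
  have h1 : (rcl N0 v).card ≤ (univ.biUnion fun j => nb (H j) v).card := by
    refine Finset.card_le_card_of_injOn (fun b => N0 b v) ?_ ?_
    · intro b hb
      have hb' : b ∈ rcl N0 v := hb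
      unfold rcl at hb'
      rw [Finset.mem_filter] at hb'
      simp only [Finset.coe_biUnion, Set.mem_iUnion]
      exact ⟨cl b, Finset.mem_coe.mpr (Finset.mem_univ _),
        Finset.mem_coe.mpr (mem_nb.mpr (hM.NG b v hb'.2).1)⟩
    · intro b hb b' hb' h
      have hb1 : b ∈ rcl N0 v := hb
      unfold rcl at hb1
      rw [Finset.mem_filter] at hb1
      exact hM.Nd b b' v hb1.2 h
  exact h1.trans Finset.card_biUnion_le

section Real

variable {E : SimpleGraph V} {U Km : Finset V} {e2 C2 ε ε₀ C₀ B0 : ℝ} {G : SimpleGraph V}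

theorem load_real (hC : Cls H Gh O W A Ex nd pr d D r a MS g δ β c1 C C' ρ0)
    (hM : Mt0 H S cl O nd pr d D r a ε1 ρ1 L N0) (hN : Mt1 S cl W nd N0 N)
    (hO : OutN G S cl O (nnj nd) d r ε ε₀ C₀ B0 (rcl N0) c N Km F) (b : Fin P) (i : I)
    (s : Bool) :
    (((nsd (nd (cl b)) i s).filter fun v => RF W F b v).card : ℝ) ≤
      8 * ((∑ v ∈ nsd (nd (cl b)) i s, ((nb (H (cl b)) v).card : ℝ)) /
        ((D (cl b) : ℝ) - r (cl b))) + sp d a + (d : ℝ) ^ (1 - ε₀) := by
  have h1 := load_diff hC hM hN hO.Fz b i s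
  have h2 := hM.load b i s
  have h3 : ((univ.filter fun v => nnj nd (cl b) v = some i ∧
      v ∉ fzN O c N b ∧ F b v ≠ N b v).card : ℝ) ≤ (d : ℝ) ^ (1 - ε₀) := by
    refine le_trans ?_ (hO.Fw (cl b) i b rfl)
    exact_mod_cast Finset.card_le_card (fun v hv => by
      simp only [Finset.mem_filter, Finset.mem_univ, true_and] at hv ⊢
      tauto)
  have h1' : (((nsd (nd (cl b)) i s).filter fun v => RF W F b v).card : ℝ) ≤
      (((nsd (nd (cl b)) i s).filter fun v => N0 b v ≠ v).card : ℝ) +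
      ((univ.filter fun v => nnj nd (cl b) v = some i ∧
        v ∉ fzN O c N b ∧ F b v ≠ N b v).card : ℝ) := by
    exact_mod_cast h1
  linarith

theorem lft_real (hC : Cls H Gh O W A Ex nd pr d D r a MS g δ β c1 C C' ρ0)
    {gS δS βS cS ρS ρT MS' : ℝ} {K' : Finset V} {Exc' : J → Finset V}
    (hR : ∀ j, ResN (H j) (Gh j) (S j) O (A j) (D j) (r j) a gS δS βS cS ρS ρT MS' K' (Exc' j))
    (hM : Mt0 H S cl O nd pr d D r a ε1 ρ1 L N0) (hN : Mt1 S cl W nd N0 N)
    (hO1 : Own1 E H S cl O U nd d r a1 C2 e2 ε1 L c N) (hC0 : 0 ≤ C₀)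
    (hO : OutN G S cl O (nnj nd) d r ε ε₀ C₀ B0 (rcl N0) c N Km F) (j : J) (v : V)
    (hv : nd j v ≠ none) :
    ((nb (H j) v).card : ℝ) ≤
      ((univ.filter fun b => cl b = j ∧ RF W F b v).card : ℝ) +
      (2 * (((nb (H j) v).card : ℝ) / D j) + ρT) * r j +
      (C₀ * (r j / d) * (∑ j', ((nb (H j') v).card : ℝ)) + (d : ℝ) ^ (-ε₀) * r j) + sp d a1 := by
  have h1 := lft_diff hC hM hN (F := F) (c := c) j v
  have h1' : ((nb (H j) v).card : ℝ) ≤
      ((univ.filter fun b => cl b = j ∧ RF W F b v).card : ℝ) +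
      (((nb (S j) v).filter fun w => (H j).Adj v w).card : ℝ) +
      (((rcl N0 v).filter fun b => cl b = j ∧ v ∉ fzN O c N b ∧ F b v ≠ N b v).card : ℝ) +
      ((univ.filter fun b => c (N b v) = some b).card : ℝ) := by
    exact_mod_cast h1
  have h3 := (hR j).lg v (notO hC hv)
  have h4 : (((rcl N0 v).filter fun b => cl b = j ∧ v ∉ fzN O c N b ∧ F b v ≠ N b v).card : ℝ) ≤
      C₀ * (r j / d) * (rcl N0 v).card + (d : ℝ) ^ (-ε₀) * r j := by
    refine le_trans ?_ (hO.Ft j v)
    exact_mod_cast Finset.card_le_card (fun b hb => by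
      simp only [Finset.mem_filter] at hb ⊢
      tauto)
  have h5 := hO1.vdc v
  have h6 : ((rcl N0 v).card : ℝ) ≤ ∑ j', ((nb (H j') v).card : ℝ) := by
    exact_mod_cast rcl_card hM v
  have h9 : C₀ * (r j / d) * (rcl N0 v).card ≤ C₀ * (r j / d) *
      (∑ j', ((nb (H j') v).card : ℝ)) :=
    mul_le_mul_of_nonneg_left h6 (by positivity)
  linarith

end Real

end Pool.Agent.Work.MP_db9399_ox.helper35
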